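import Pool.Agent.PFD.StmtsD2

set_option autoImplicit false

/-!
# Squad PFD, part D2: row PLG (helper94)
-/

namespace Pool.Agent.PFD.D2.H94

open MulOpposite
open Pool.Agent.PFC.B1 (BiM FS Sep)

section res

variable {R : Type} [CommRing R]

/-- restriction of an action to a submodule -/
def rst {B V : Type} [Ring B] [Algebra R B] [AddCommGroup V] [Module R V]
    (f : B →ₐ[R] Module.End R V) (P : Submodule R V) (h : ∀ b, ∀ z ∈ P, f b z ∈ P) :
    B →ₐ[R] Module.End R P where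
  toFun b := (f b).restrict (h b)
  map_one' := by
    apply LinearMap.ext; intro z; apply Subtype.ext
    change f 1 z = z
    rw [map_one]; rfl
  map_mul' a b := by
    apply LinearMap.ext; intro z; apply Subtype.ext
    change f (a * b) z = f a (f b z)
    rw [map_mul]; rfl
  map_zero' := by
    apply LinearMap.ext; intro z; apply Subtype.ext
    change f 0 z = 0
    rw [map_zero]; rfl
  map_add' a b := by
    apply LinearMap.ext; intro z; apply Subtype.ext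
    change f (a + b) z = f a z + f b z
    rw [map_add]; rfl
  commutes' r := by
    apply LinearMap.ext; intro z; apply Subtype.ext
    change f (algebraMap R B r) z = r • (z : V)
    rw [f.commutes]; rfl

theorem rst_apply {B V : Type} [Ring B] [Algebra R B] [AddCommGroup V] [Module R V]
    (f : B →ₐ[R] Module.End R V) (P : Submodule R V) (h : ∀ b, ∀ z ∈ P, f b z ∈ P) (b : B)
    (z : P) : (rst f P h b z : V) = f b z := rfl

end res

/-- row PLG -/
theorem plg (idg : IdgStmt) : PlgStmt := by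
  intro R F Γ A X X0 _ _ _ _ c _ _ _ _ _ _ _ _ _ _ BX D hL
  have hee : ∀ x, D.e (D.e x) = D.e x := fun x => by
    obtain ⟨γ, hγ⟩ := D.e1 x
    rw [hγ, D.e2]
  have hπA : ∀ x : A, c.π • x = 0 := fun x => by
    rw [Algebra.smul_def, D.hA, zero_mul]
  obtain ⟨i0, hi0⟩ : ∃ i0 : A →ₗ[R] X0, ∀ x, i0 x = D.i0 (x - D.e x) :=
    ⟨D.i0 ∘ₗ (LinearMap.id - D.e), fun _ => rfl⟩
  obtain ⟨p0, hp0⟩ : ∃ p0 : X0 →ₗ[R] A, ∀ x, p0 x = D.p0 x - D.e (D.p0 x) :=
    ⟨D.p0 - D.e ∘ₗ D.p0, fun _ => rfl⟩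
  have hep : ∀ x, D.e (p0 x) = 0 := fun x => by rw [hp0, map_sub, hee, sub_self]
  have hpi : ∀ x, p0 (i0 x) = x - D.e x := fun x => by
    rw [hp0, hi0, D.ip]
    simp only [map_sub, hee]
    abel
  have hpip : ∀ x, p0 (i0 (p0 x)) = p0 x := fun x => by rw [hpi, hep, sub_zero]
  have i1 : ∀ γ x, i0 (D.j γ * x) = D.B0.lm γ (i0 x) := fun γ x => by
    rw [hi0, hi0, D.e3, ← mul_sub, D.i1]
  have i2 : ∀ γ x, i0 (x * D.j γ) = D.B0.rm (op γ) (i0 x) := fun γ x => by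
    rw [hi0, hi0, D.e4, ← sub_mul, D.i2]
  have p1 : ∀ γ x, p0 (D.B0.lm γ x) = D.j γ * p0 x := fun γ x => by
    rw [hp0, hp0, D.p1, D.e3, ← mul_sub]
  have p2 : ∀ γ x, p0 (D.B0.rm (op γ) x) = p0 x * D.j γ := fun γ x => by
    rw [hp0, hp0, D.p2, D.e4, ← sub_mul]
  have hsπ : ∀ y, D.s (c.π • y) = 0 := fun y => (D.s3 _).2 ⟨y, rfl⟩
  -- the lift of the projector
  obtain ⟨g0, hg0⟩ : ∃ g0 : X →ₗ[R] X, ∀ x, D.s (g0 x) = i0 (p0 (D.s x)) := by
    obtain ⟨g, hg⟩ := Module.projective_lifting_property D.s (i0 ∘ₗ p0 ∘ₗ D.s) D.s2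
    exact ⟨g, fun x => LinearMap.congr_fun hg x⟩
  obtain ⟨g1, ⟨hg1l, hg1r⟩, hg1⟩ := hL.l1 g0 (by
    constructor
    · intro γ x
      refine (D.s3 _).1 ?_
      rw [map_sub, hg0, D.s1.1, D.s1.1, p1, i1, hg0, sub_self]
    · intro γ x
      refine (D.s3 _).1 ?_
      obtain ⟨γ, rfl⟩ := op_surjective γ
      rw [map_sub, hg0, D.s1.2, D.s1.2, p2, i2, hg0, sub_self])
  have hsg : ∀ x, D.s (g1 x) = i0 (p0 (D.s x)) := fun x => by
    obtain ⟨y, hy⟩ := hg1 x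
    have h1 : g1 x = g0 x + c.π • y := by rw [← hy]; abel
    rw [h1, map_add, hsπ, add_zero, hg0]
  obtain ⟨h, hhh, hhS, hh⟩ := idg R F X c (Set.range BX.lm ∪ Set.range BX.rm) g1 (by
    rintro s (⟨γ, rfl⟩ | ⟨γ, rfl⟩)
    · exact LinearMap.ext fun x => (hg1l γ x).symm
    · exact LinearMap.ext fun x => (hg1r γ x).symm) (fun x => by
    refine (D.s3 _).1 ?_
    rw [map_sub, hsg, hsg, hpip, sub_self])
  have hl : ∀ γ x, h (BX.lm γ x) = BX.lm γ (h x) :=
    fun γ x => (LinearMap.congr_fun (hhS _ (Or.inl ⟨γ, rfl⟩)) x).symm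
  have hr : ∀ γ x, h (BX.rm γ x) = BX.rm γ (h x) :=
    fun γ x => (LinearMap.congr_fun (hhS _ (Or.inr ⟨γ, rfl⟩)) x).symm
  have hh2 : ∀ x, h (h x) = h x := fun x => LinearMap.congr_fun hhh x
  have hsh : ∀ x, D.s (h x) = i0 (p0 (D.s x)) := fun x => by
    obtain ⟨y, hy⟩ := hh x
    have h1 : h x = g1 x + c.π • y := by rw [← hy]; abel
    rw [h1, map_add, hsπ, add_zero, hsg]
  have hlP : ∀ γ, ∀ z ∈ LinearMap.range h, BX.lm γ z ∈ LinearMap.range h := by
    rintro γ _ ⟨z, rfl⟩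
    exact ⟨_, hl γ z⟩
  have hrP : ∀ γ, ∀ z ∈ LinearMap.range h, BX.rm γ z ∈ LinearMap.range h := by
    rintro γ _ ⟨z, rfl⟩
    exact ⟨_, hr γ z⟩
  have hPh : ∀ z : LinearMap.range h, h z = z := by
    rintro ⟨_, ⟨z, rfl⟩⟩
    exact hh2 z
  obtain ⟨q, hq⟩ : ∃ q : LinearMap.range h →ₗ[R] A, ∀ z, q z = p0 (D.s z) :=
    ⟨p0 ∘ₗ D.s ∘ₗ (LinearMap.range h).subtype, fun z => rfl⟩
  have hfree : Module.Free R (LinearMap.range h) := by
    obtain ⟨k, bN⟩ := Submodule.basisOfPid (Module.Free.chooseBasis R X) (LinearMap.range h)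
    exact Module.Free.of_basis bN
  have hfin : Module.Finite R (LinearMap.range h) := inferInstance
  have hq1 : ∀ γ x, q (rst BX.lm _ hlP γ x) = D.j γ * q x := fun γ x => by
    rw [hq, hq, rst_apply, D.s1.1, p1]
  have hq2 : ∀ γ x, q (rst BX.rm _ hrP (op γ) x) = q x * D.j γ := fun γ x => by
    rw [hq, hq, rst_apply, D.s1.2, p2]
  refine ⟨LinearMap.range h, inferInstance, inferInstance, hfin, hfree, ⟨{
    lm := rst BX.lm _ hlP
    rm := rst BX.rm _ hrP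
    comm := fun a b x => Subtype.ext (BX.comm a b (x : X))
    q := q
    q1 := hq1
    q2 := hq2
    q3 := fun x => by rw [hq]; exact hep _
    q4 := ?_
    q5 := ?_
    i := (LinearMap.range h).subtype
    i1 := ⟨fun _ _ => rfl, fun _ _ => rfl⟩
    p := h.rangeRestrict
    p1 := ⟨fun γ x => Subtype.ext (hl γ x), fun γ x => Subtype.ext (hr γ x)⟩
    pi := LinearMap.ext fun x => Subtype.ext (hPh x) }⟩⟩
  · intro y hy
    obtain ⟨x0, hx0⟩ := D.s2 (i0 y)
    refine ⟨⟨h x0, ⟨x0, rfl⟩⟩, ?_⟩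
    rw [hq]
    show p0 (D.s (h x0)) = y
    rw [hsh, hpip, hx0, hpi, hy, sub_zero]
  · intro x
    constructor
    · intro hx
      rw [hq] at hx
      have h1 : D.s (h x) = 0 := by rw [hsh, hx, map_zero]
      obtain ⟨y, hy⟩ := (D.s3 _).1 h1
      refine ⟨⟨h y, ⟨y, rfl⟩⟩, Subtype.ext ?_⟩
      change (x : X) = c.π • h y
      rw [← map_smul, ← hy, hh2, hPh]
    · rintro ⟨y, rfl⟩
      rw [map_smul]
      exact hπA _

end Pool.Agent.PFD.D2.H94
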