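import Pool.Agent.PFD.StmtsD1

/-!
# Squad PFD, row ADJ: the adjoint of the right connection
-/

set_option autoImplicit false

open scoped BigOperators

noncomputable section

namespace Pool.Agent.PFD.H94

open Pool.Agent.PFC.B1 Pool.Agent.PFD

section
variable {R B I : Type} [CommRing R] [Ring B] [Algebra R B] [Fintype I]

/-- a bilinear function as a linear map -/
def lm {X : Type} [AddCommGroup X] [Module R X] {F : B → B → X} (h : Bil R F) :
    B →ₗ[R] B →ₗ[R] X :=
  LinearMap.mk₂ R F h.a1 h.s1 h.a2 h.s2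

theorem lm_apply {X : Type} [AddCommGroup X] [Module R X] {F : B → B → X} (h : Bil R F)
    (a b : B) : lm h a b = F a b := rfl

/-- M3 -/
theorem m3 (c : FS R B I) (cs : ∀ x y, c.lam (x * y) = c.lam (y * x)) {X : Type}
    [AddCommGroup X] [Module R X] {F : B → B → X} (h : Bil R F) :
    ∑ i, F (c.b i) (c.b' i) = ∑ i, F (c.b' i) (c.b i) := by
  have h1 : ∀ i, F (c.b i) (c.b' i) = ∑ k, c.lam (c.b i * c.b k) • F (c.b' k) (c.b' i) := by
    intro i
    have e : F (c.b i) (c.b' i) = lm h (∑ k, c.lam (c.b i * c.b k) • c.b' k) (c.b' i) := by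
      rw [c.h2]; rfl
    rw [e, map_sum, LinearMap.sum_apply]
    refine Finset.sum_congr rfl fun k _ => ?_
    rw [map_smul, LinearMap.smul_apply, lm_apply]
  have h2 : ∀ k, F (c.b' k) (c.b k) = ∑ i, c.lam (c.b i * c.b k) • F (c.b' k) (c.b' i) := by
    intro k
    have e : F (c.b' k) (c.b k) = lm h (c.b' k) (∑ i, c.lam (c.b k * c.b i) • c.b' i) := by
      rw [c.h2]; rfl
    rw [e, map_sum]
    refine Finset.sum_congr rfl fun i _ => ?_
    rw [map_smul, lm_apply, cs]
  simp only [h1, h2]
  exact Finset.sum_comm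

/-- M5 -/
theorem m5 (c : FS R B I) {X : Type}
    [AddCommGroup X] [Module R X] {F : B → B → X} (h : Bil R F) (v : B →ₗ[R] B) (De : B)
    (der : ∀ a b, v (a * b) = v a * b + a * v b) (div : ∀ a, c.lam (v a) = - c.lam (a * De)) :
    ∑ i, F (c.b i) (v (c.b' i)) = - ∑ i, F (v (c.b i) + c.b i * De) (c.b' i) := by
  have h1 : ∀ i, F (c.b i) (v (c.b' i)) = ∑ k, c.lam (v (c.b' i) * c.b k) • F (c.b i) (c.b' k) := by
    intro i
    have e : F (c.b i) (v (c.b' i)) =
        lm h (c.b i) (∑ k, c.lam (v (c.b' i) * c.b k) • c.b' k) := by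
      rw [c.h2]; rfl
    rw [e, map_sum]
    refine Finset.sum_congr rfl fun k _ => ?_
    rw [map_smul, lm_apply]
  have h2 : ∀ k, F (v (c.b k) + c.b k * De) (c.b' k) =
      ∑ i, - c.lam (v (c.b' i) * c.b k) • F (c.b i) (c.b' k) := by
    intro k
    have e : F (v (c.b k) + c.b k * De) (c.b' k) =
        lm h (∑ i, c.lam (c.b' i * (v (c.b k) + c.b k * De)) • c.b i) (c.b' k) := by
      rw [c.h1]; rfl
    rw [e, map_sum, LinearMap.sum_apply]
    refine Finset.sum_congr rfl fun i _ => ?_
    rw [map_smul, LinearMap.smul_apply, lm_apply]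
    have e2 : c.lam (c.b' i * (v (c.b k) + c.b k * De)) = - c.lam (v (c.b' i) * c.b k) := by
      have e3 := div (c.b' i * c.b k)
      rw [der, map_add] at e3
      rw [mul_add, map_add, ← mul_assoc]
      linear_combination e3
    rw [e2]
  simp only [h1, h2]
  rw [Finset.sum_comm, ← Finset.sum_neg_distrib]
  refine Finset.sum_congr rfl fun k _ => ?_
  rw [← Finset.sum_neg_distrib]
  refine Finset.sum_congr rfl fun i _ => ?_
  rw [neg_smul, neg_neg]

end

section
variable {R B A I J N : Type} [CommRing R] [Ring B] [Algebra R B] [Ring A] [Algebra R A]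
    [Fintype I] [Fintype J] [Fintype N]

/-- bilinear functions made of two traces -/
theorem bilT (D : Net R B A I J N) (g g' : B →ₗ[R] B) (a1 a2 a3 a4 : A) :
    Bil R (fun p q : B => D.T (a1 * D.j (g p) * a2) * D.T (a3 * D.j (g' q) * a4)) where
  a1 a a' b := by
    simp only [map_add, mul_add, add_mul, Net.T]
  a2 a b b' := by
    simp only [map_add, mul_add, add_mul, Net.T]
  s1 r a b := by
    simp only [map_smul, mul_smul_comm, smul_mul_assoc, Net.T, smul_eq_mul]
    ring
  s2 r a b := by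
    simp only [map_smul, mul_smul_comm, smul_mul_assoc, Net.T, smul_eq_mul]
    ring

theorem T_comm (D : Net R B A I J N) (a b : A) : D.T (a * b) = D.T (b * a) := D.ds a b

/-- the double M3 move -/
theorem key (D : Net R B A I J N) (g : B →ₗ[R] B) (a b : A) :
    ∑ s, ∑ i, ∑ l, D.T (D.j (g (D.c.b i)) * D.y s * D.u l * a) *
      D.T (D.u' l * D.x s * D.u' i * b) =
    ∑ s, ∑ i, ∑ l, D.T (D.u i * D.x s * D.u l * b) *
      D.T (a * D.j (g (D.c.b' l)) * D.y s * D.u' i) := by
  refine Finset.sum_congr rfl fun s _ => ?_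
  have h1 : ∀ i, ∑ l, D.T (D.j (g (D.c.b i)) * D.y s * D.u l * a) *
      D.T (D.u' l * D.x s * D.u' i * b) = ∑ l, D.T (D.j (g (D.c.b i)) * D.y s * D.u' l * a) *
      D.T (D.u l * D.x s * D.u' i * b) := by
    intro i
    have h := m3 D.c D.cs (bilT D LinearMap.id LinearMap.id (D.j (g (D.c.b i)) * D.y s) a 1
      (D.x s * D.u' i * b))
    simp only [LinearMap.id_coe, id_eq, one_mul] at h
    refine (Finset.sum_congr rfl fun l _ => ?_).trans (h.trans (Finset.sum_congr rfl fun l _ => ?_))
    · simp only [Net.u, Net.u', mul_assoc]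
    · simp only [Net.u, Net.u', mul_assoc]
  simp only [h1]
  rw [Finset.sum_comm]
  refine Finset.sum_congr rfl fun l _ => ?_
  have h := m3 D.c D.cs (bilT D g LinearMap.id 1 (D.y s * D.u' l * a) (D.u l * D.x s) b)
  simp only [LinearMap.id_coe, id_eq, one_mul] at h
  refine (Finset.sum_congr rfl fun i _ => ?_).trans (h.trans (Finset.sum_congr rfl fun i _ => ?_))
  · simp only [Net.u, Net.u', mul_assoc]
  · rw [mul_comm]
    simp only [Net.u, Net.u', mul_assoc]
    congr 1
    rw [T_comm D a]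
    simp only [mul_assoc]

/-- CQ -/
theorem cq (D : Net R B A I J N) (a : A) :
    ∑ s, ∑ i, ∑ l, D.T (D.u i * D.x s * D.u l * a) • (D.u' l * D.y s * D.u' i) =
      a - D.j (D.pr a) := by
  rw [← D.cy a]
  refine Finset.sum_congr rfl fun s _ => ?_
  rw [Finset.sum_comm]
  rw [Finset.sum_comm (f := fun i l => D.d.lam (D.j (D.c.b l) * D.x s * D.j (D.c.b' i) * a) •
    (D.j (D.c.b i) * D.y s * D.j (D.c.b' l)))]
  rw [Finset.sum_comm]
  refine Finset.sum_congr rfl fun i _ => ?_
  have hb : Bil R (fun p q : B => D.T (D.j (D.c.b i) * D.x s * D.j p * a) •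
      (D.j q * D.y s * D.j (D.c.b' i))) := by
    constructor
    · intro a a' b
      simp only [map_add, mul_add, add_mul, Net.T, add_smul]
    · intro a a' b
      simp only [map_add, add_mul, smul_add]
    · intro r a b
      simp only [map_smul, mul_smul_comm, smul_mul_assoc, Net.T, smul_assoc]
    · intro r a b
      simp only [map_smul, smul_mul_assoc]
      rw [smul_comm]
  exact m3 D.c D.cs hb

theorem adj : AdjStmt := by
  intro R B A I J N _ _ _ _ _ _ _ _ D v De hv a b
  have e1 : D.T (D.op.Ry v a * b) = ∑ s, ∑ l, ∑ i, D.T (D.u i * D.y s * D.u l * a) *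
      D.T (D.u' l * D.x s * D.j (v (D.c.b' i)) * b) := by
    have h : D.op.Ry v a = ∑ s, ∑ i, ∑ l, D.T (D.u i * D.y s * D.u l * a) •
      (D.u' l * D.x s * D.j (v (D.c.b' i))) := rfl
    rw [h]
    simp only [Finset.sum_mul, Net.T, map_sum]
    refine Finset.sum_congr rfl fun s _ => ?_
    rw [Finset.sum_comm]
    refine Finset.sum_congr rfl fun l _ => Finset.sum_congr rfl fun i _ => ?_
    rw [smul_mul_assoc, map_smul, smul_eq_mul]
  have e2 : ∀ s l, ∑ i, D.T (D.u i * D.y s * D.u l * a) *
      D.T (D.u' l * D.x s * D.j (v (D.c.b' i)) * b) =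
      - ∑ i, D.T (D.j (v (D.c.b i)) * D.y s * D.u l * a) *
      D.T (D.u' l * D.x s * D.u' i * b) - ∑ i, D.T (D.j (De * D.c.b i) * D.y s * D.u l * a) *
      D.T (D.u' l * D.x s * D.u' i * b) := by
    intro s l
    have h := m5 D.c (bilT D LinearMap.id LinearMap.id 1 (D.y s * D.u l * a)
      (D.u' l * D.x s) b) v De hv.der hv.div
    simp only [LinearMap.id_coe, id_eq, one_mul] at h
    rw [← neg_add', ← Finset.sum_add_distrib]
    refine (Finset.sum_congr rfl fun i _ => ?_).trans (h.trans ?_)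
    · simp only [Net.u, Net.u', mul_assoc]
    · congr 1
      refine Finset.sum_congr rfl fun i _ => ?_
      rw [← hv.cen]
      simp only [Net.u, Net.u', mul_assoc, map_add, add_mul, Net.T]
  have e3 : D.T (a * (D.Ly v b + D.j De * (b - D.j (D.pr b)))) =
      (∑ s, ∑ i, ∑ l, D.T (D.u i * D.x s * D.u l * b) *
        D.T (a * D.j (v (D.c.b' l)) * D.y s * D.u' i)) +
      ∑ s, ∑ i, ∑ l, D.T (D.u i * D.x s * D.u l * b) *
        D.T (a * D.j (De * D.c.b' l) * D.y s * D.u' i) := by
    rw [← cq D b]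
    unfold Net.Ly
    simp only [Net.T, mul_add, Finset.mul_sum, map_add, map_sum]
    congr 1
    · refine Finset.sum_congr rfl fun s _ => Finset.sum_congr rfl fun i _ =>
        Finset.sum_congr rfl fun l _ => ?_
      rw [mul_smul_comm, map_smul, smul_eq_mul]
      simp only [mul_assoc]
    · refine Finset.sum_congr rfl fun s _ => Finset.sum_congr rfl fun i _ =>
        Finset.sum_congr rfl fun l _ => ?_
      rw [mul_smul_comm, mul_smul_comm, map_smul, smul_eq_mul, map_mul D.j]
      simp only [mul_assoc, Net.u']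
  have k1 := key D v a b
  have k2 := key D (Lz R De) a b
  simp only [LinearMap.mulLeft_apply] at k2
  rw [e1, e3, ← k1, ← k2]
  simp only [e2, Finset.sum_sub_distrib, Finset.sum_neg_distrib]
  rw [neg_add']
  congr 1
  · congr 1
    exact Finset.sum_congr rfl fun s _ => Finset.sum_comm
  · exact Finset.sum_congr rfl fun s _ => Finset.sum_comm

end

end Pool.Agent.PFD.H94
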