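import Pool.Agent.PFD.StmtsD5b
import Pool.Agent.AT3.Asm

/-!
# Squad PFD, row BNR: the blocks of `N(R)` under `br_R(e)`
-/

open scoped BigOperators

noncomputable section

namespace Pool.Agent.PFD.H94b

open Pool.Agent.Helper51_AWC Pool.Agent.Helper79_WRA Pool.Agent.PP Pool.Agent.PP.KF
open Pool.Agent.PP.K9 Pool.Agent.PP.K9.H97 Pool.Agent.PP.H75 Pool.Agent.PP.T3
open Pool.Agent.PP.T3.H65 Pool.Agent.PFD

attribute [local instance] Ideal.Quotient.field

/-- row QT1, for `p.ker ≤ Q` -/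
theorem qt1g (dug : DugStmt) (psg : PsgStmt) (ℓ : ℕ) [Fact ℓ.Prime]
    (M : Ideal (integralClosure ℤ ℂ)) [M.IsMaximal] (hM : (ℓ : integralClosure ℤ ℂ) ∈ M)
    (G : Type) [Group G] [Finite G] (e : G → FF M) (V : Subgroup G) (γ : G → FF M)
    (hLd : Ld ℓ e V γ) (Q : Subgroup G) (hQp : IsPGroup ℓ Q) (A : Type) [Group A] [Finite A]
    (p : Subgroup.normalizer (Q : Set G) →* A) (hp : Function.Surjective p)
    (hker : p.ker ≤ Q.subgroupOf (Subgroup.normalizer (Q : Set G))) (f : A → FF M) (hf : IsBlk f)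
    (hff : mulF (push p (fun t : Subgroup.normalizer (Q : Set G) => br Q e t)) f = f) :
    ∃ k : G, Q ≤ conjS k V ∧ conjS k V ≤ Subgroup.centralizer (Q : Set G) ∧
      Tp ℓ f (((conjS k V).subgroupOf (Subgroup.normalizer (Q : Set G))).map p) := by
  classical
  have hF : GoodF ℓ (FF M) := H50.fld ℓ Fact.out M hM
  obtain ⟨C, hC⟩ : ∃ C : Subgroup G, C = Subgroup.centralizer (Q : Set G) := ⟨_, rfl⟩
  have hCN : C ≤ Subgroup.normalizer (Q : Set G) := by
    rw [hC]
    exact Subgroup.centralizer_le_normalizer _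
  have he : IsIdem e := hLd.blk.1
  have hmk : ∀ x : Subgroup.normalizer (Q : Set G), p x = 1 → (x : G) ∈ Q := by
    intro x hx
    rw [← MonoidHom.mem_ker] at hx
    exact Subgroup.mem_subgroupOf.1 (hker hx)
  have hf0 : f ≠ 0 := hf.2.1
  -- the idempotents
  obtain ⟨f', hf'⟩ : ∃ f' : A → FF M,
    f' = push p (fun t : Subgroup.normalizer (Q : Set G) => br Q e t) := ⟨_, rfl⟩
  have hbrQ : IsIdem (fun t : Subgroup.normalizer (Q : Set G) => br Q e t) :=
    (H20.brm ℓ (FF M) hF G Q _ hQp (by rw [← hC]; exact hCN) le_rfl).2.2 e he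
  have hf'I : IsIdem f' := by
    rw [hf']
    exact push_isIdem hp hbrQ
  rw [← hf'] at hff
  -- `Q` is good for `e`
  have hbr0 : br Q e ≠ 0 := by
    intro h
    apply hf0
    rw [← hff, hf', h]
    have h1 : push p (fun t : Subgroup.normalizer (Q : Set G) => (0 : G → FF M) t) = 0 :=
      push_zero p
    rw [h1, mulF_zero_left]
  have hQe : Gd e Q := C2.H3.gd_of_br' hbr0
  obtain ⟨hfm, -, -⟩ := K9.H69.fmg ℓ M hM G e hLd.blk V hLd.tp
  obtain ⟨g0, hg0⟩ := hfm Q hQp hQe
  have hQab : ∀ a ∈ Q, ∀ b ∈ Q, a * b = b * a := by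
    intro a ha b hb
    have h1 := mem_conjS.1 (hg0 ha)
    have h2 := mem_conjS.1 (hg0 hb)
    have h3 := hLd.ab _ h1 _ h2
    have h4 : g0 * (g0⁻¹ * a * g0 * (g0⁻¹ * b * g0)) * g0⁻¹ = a * b := by group
    have h5 : g0 * (g0⁻¹ * b * g0 * (g0⁻¹ * a * g0)) * g0⁻¹ = b * a := by group
    rw [← h4, ← h5, h3]
  have hQC : Q ≤ C := by
    rw [hC]
    intro a ha
    rw [Subgroup.mem_centralizer_iff]
    intro b hb
    exact hQab b hb a ha
  -- the homomorphism on the centraliser
  obtain ⟨q, hq⟩ : ∃ q : C →* A, q = p.comp (Subgroup.inclusion hCN) := ⟨_, rfl⟩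
  have hqk : ∀ c : C, c ∈ q.ker → (c : G) ∈ Q := by
    intro c hc
    rw [MonoidHom.mem_ker, hq] at hc
    exact hmk _ hc
  have hqc : q.ker ≤ Subgroup.center C := by
    intro c hc
    rw [Subgroup.mem_center_iff]
    intro d
    apply Subtype.ext
    change (d : G) * c = c * d
    have h1 := hC.le d.2
    rw [Subgroup.mem_centralizer_iff] at h1
    exact (h1 c (hqk c hc)).symm
  have hqp : IsPGroup ℓ q.ker := by
    refine hQp.of_injective ((Subgroup.subtype C).comp q.ker.subtype |>.codRestrict Q ?_) ?_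
    · intro x
      exact hqk x.1 x.2
    · intro a b hab
      apply Subtype.ext
      apply Subtype.ext
      exact congrArg (fun t : Q => (t : G)) hab
  have hkp : IsPGroup ℓ p.ker := by
    have h1 : IsPGroup ℓ (Q.subgroupOf (Subgroup.normalizer (Q : Set G))) :=
      hQp.comap_of_injective (Subgroup.normalizer (Q : Set G)).subtype
        (Subgroup.normalizer (Q : Set G)).subtype_injective
    exact h1.to_le hker
  have hf'q : f' = push q (fun t : C => e t) := by
    rw [hf', T3.H43.push_res hCN p (a := br Q e) (by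
      intro x hx
      rw [hC] at hx
      exact br_out e hx), ← hq]
    congr 1
    funext t
    apply br_in
    rw [← hC]
    exact t.2
  have hconj : ∀ n ∈ Subgroup.normalizer (Q : Set G), ∀ c ∈ C, n * c * n⁻¹ ∈ C := by
    intro n hn c hc
    rw [hC, Subgroup.mem_centralizer_iff] at hc ⊢
    intro v hv
    have h1 : n⁻¹ * v * n ∈ Q := by
      have h2 := (Subgroup.mem_normalizer_iff.1 (inv_mem hn) v).1 hv
      rwa [inv_inv] at h2
    have h2 := hc _ h1
    calc v * (n * c * n⁻¹) = n * ((n⁻¹ * v * n) * c) * n⁻¹ := by group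
      _ = n * (c * (n⁻¹ * v * n)) * n⁻¹ := by rw [h2]
      _ = (n * c * n⁻¹) * v := by group
  have hnorm : q.range.Normal := by
    refine ⟨?_⟩
    rintro _ ⟨c, rfl⟩ a
    obtain ⟨n, rfl⟩ := hp a
    refine ⟨⟨(n : G) * c * (n : G)⁻¹, hconj n n.2 c c.2⟩, ?_⟩
    rw [hq]
    change p (Subgroup.inclusion hCN _) = p n * p (Subgroup.inclusion hCN c) * (p n)⁻¹
    rw [← map_inv, ← map_mul, ← map_mul]
    rfl
  have hbC : (fun t : C => br Q e t) = fun t : C => e t := by
    funext t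
    apply br_in
    rw [← hC]
    exact t.2
  have heC : IsIdem (fun t : C => e t) := by
    have h1 := (H20.brm ℓ (FF M) hF G Q C hQp hC.ge hCN).2.2 e he
    rwa [hbC] at h1
  -- the block of the centraliser
  obtain ⟨d0, hd0, hd01, hd02⟩ := K9.H24.exists_blk (fun a : C → FF M => mulF f (push q a))
    (by
      change mulF f (push q 0) = 0
      rw [push_zero]
      exact H46.mulF_zero _)
    (fun a b => by
      change mulF f (push q (a + b)) = mulF f (push q a) + mulF f (push q b)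
      rw [T3.H43.push_add]
      exact H46.mulF_add _ _ _) heC (by
      change mulF f (push q (fun t : C => e t)) ≠ 0
      rw [← hf'q, mulF_comm_cl hf.1.1, hff]
      exact hf0)
  change mulF f (push q d0) ≠ 0 at hd02
  obtain ⟨δ, hδ⟩ : ∃ δ : G → FF M, δ = H75.ext0 C d0 := ⟨_, rfl⟩
  have hδs : ∀ x, x ∉ C → δ x = 0 := by
    rw [hδ]
    exact H75.ext0_supp C d0
  have hδC : (fun t : C => δ t) = d0 := by
    rw [hδ]
    exact funext (H75.ext0_apply C d0)
  have hBδ : Bx C δ := ⟨hδs, by rw [hδC]; exact hd0⟩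
  have hbs : ∀ x, x ∉ C → br Q e x = 0 := by
    intro x hx
    rw [hC] at hx
    exact br_out e hx
  have hund : mulF (br Q e) δ = δ := by
    apply eq_of_res (mulF_supp C hbs hδs) hδs
    rw [mulF_res C δ hbs, hδC, hbC, hd01]
  obtain ⟨P, hQP, hPC, hP, hPV, hδP⟩ := dug ℓ M hM G e hLd.blk V hLd.tp hLd.ab Q hQp δ
    (by rw [← hC]; exact hBδ) (by
      rw [← hC, hδC]
      exact hd01)
  rw [← hC] at hPC
  have hPN : P ≤ Subgroup.normalizer (Q : Set G) := hPC.trans hCN
  -- `P` is good for `e`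
  have hinvP : H66.Inv P δ := fun p hp t => C2.H3.ix_inv hBδ.ix (hPC hp) t
  have hIQ : Ix C (br Q e) := ⟨hbs, by rw [hbC]; exact heC⟩
  have hinvQ : H66.Inv P (br Q e) := fun p hp t => C2.H3.ix_inv hIQ (hPC hp) t
  have hPe : mulF (br P e) (br P δ) = br P δ := by
    have h1 := congrArg (br P) hund
    rwa [H66.br_mulF hF hP hinvQ hinvP, C2.H3.br_br hQP] at h1
  have hGe : Gd e P := by
    apply C2.H3.gd_of_br'
    intro h0
    apply C2.H3.br_ne_of_gd hδP
    rw [← hPe, h0, mulF_zero_left]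
  obtain ⟨k, hk⟩ := hfm P hP hGe
  have hPk : P = conjS k V := by
    refine Subgroup.eq_of_le_of_card_ge hk ?_
    rw [Pool.Agent.Helper51_AWC.card_conjS, hPV]
  refine ⟨k, by rw [← hPk]; exact hQP, by rw [← hPk, ← hC]; exact hPC, ?_⟩
  rw [← hPk]
  obtain ⟨P', hP'⟩ : ∃ P' : Subgroup A,
    P' = (P.subgroupOf (Subgroup.normalizer (Q : Set G))).map p := ⟨_, rfl⟩
  rw [← hP']
  have hPNp : IsPGroup ℓ (P.subgroupOf (Subgroup.normalizer (Q : Set G))) :=
    hP.comap_of_injective (Subgroup.normalizer (Q : Set G)).subtype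
      (Subgroup.normalizer (Q : Set G)).subtype_injective
  have hP'p : IsPGroup ℓ P' := by
    rw [hP']
    exact hPNp.map p
  have hP'C : P' ≤ q.range := by
    rw [hP']
    rintro _ ⟨w, hw, rfl⟩
    refine ⟨⟨w, hPC (Subgroup.mem_subgroupOf.1 hw)⟩, ?_⟩
    rw [hq]
    rfl
  -- the block `g'`
  obtain ⟨g', hg'⟩ : ∃ g' : A → FF M, g' = push q d0 := ⟨_, rfl⟩
  have hBg : Bx q.range g' := by
    rw [hg']
    exact T3.H43.push_blk psg hF q hqc hqp hd0
  have hBd : Bd q.range g' := ⟨hnorm, hBg.supp, hBg.blk⟩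
  rw [← hg'] at hd02
  have hgP' : Gd g' P' := by
    have h1 : Gd d0 (P.subgroupOf C) := by
      obtain ⟨x, hx, hx0⟩ := hδP
      have hxC : x ∈ C := by
        by_contra h
        exact hx0 (hδs x h)
      refine ⟨⟨x, hxC⟩, (cent_sub hPC _).2 hx, ?_⟩
      have h2 := congrFun hδC ⟨x, hxC⟩
      rw [← h2]
      exact hx0
    have hkr : IsPGroup ℓ q.rangeRestrict.ker := by
      rw [MonoidHom.ker_rangeRestrict]
      exact hqp
    have h2 := (K9.H02.pug ℓ (FF M) hF C q.range q.rangeRestrict q.rangeRestrict_surjective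
      hkr d0 hd0.1 (P.subgroupOf C) (by
        rw [MonoidHom.ker_rangeRestrict]
        intro c hc
        exact Subgroup.mem_subgroupOf.2 (hQP (hqk c hc)))
      (hP.comap_of_injective C.subtype C.subtype_injective)).1 h1
    obtain ⟨y, hy, hy0⟩ := h2
    rw [← push_range, ← hg'] at hy0
    refine ⟨y, ?_, hy0⟩
    rw [Subgroup.mem_centralizer_iff] at hy ⊢
    rw [hP']
    rintro _ ⟨w, hw, rfl⟩
    have hwP : (w : G) ∈ P := Subgroup.mem_subgroupOf.1 hw
    have h3 := hy (q.rangeRestrict ⟨w, hPC hwP⟩) ⟨⟨w, hPC hwP⟩, Subgroup.mem_subgroupOf.2 hwP, rfl⟩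
    have h4 : ((q.rangeRestrict ⟨w, hPC hwP⟩ : q.range) : A) = p w := by
      change q ⟨w, hPC hwP⟩ = p w
      rw [hq]
      rfl
    have h5 := congrArg (fun t : q.range => (t : A)) h3
    change ((q.rangeRestrict ⟨w, hPC hwP⟩ : q.range) : A) * y =
      y * ((q.rangeRestrict ⟨w, hPC hwP⟩ : q.range) : A) at h5
    rwa [h4] at h5
  refine ⟨hP'p, cover_gd hF hBd hf.1 hd02 hP'C hP'p hgP', ?_⟩
  intro R' hR' hRf
  have hRf' : Gd f' R' := gd_of_mul hF hf'I.1 hf.1.1 hff hR' hRf
  have hRp : IsPGroup ℓ (R'.comap p) := hR'.comap_of_ker_isPGroup p hkp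
  have hkR : p.ker ≤ R'.comap p := by
    intro x hx
    rw [Subgroup.mem_comap, MonoidHom.mem_ker.1 hx]
    exact R'.one_mem
  have h1 := (K9.H02.pug ℓ (FF M) hF _ A p hp hkp _ hbrQ (R'.comap p) hkR hRp).2 (by
    rw [Subgroup.map_comap_eq_self_of_surjective hp, ← hf']
    exact hRf')
  have h2 : Gd (br Q e) ((R'.comap p).map (Subgroup.normalizer (Q : Set G)).subtype) :=
    gd_map h1
  have h3 : Gd e ((R'.comap p).map (Subgroup.normalizer (Q : Set G)).subtype) := by
    obtain ⟨x, hx, hx0⟩ := h2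
    refine ⟨x, hx, ?_⟩
    by_cases hxQ : x ∈ Subgroup.centralizer (Q : Set G)
    · rwa [br_in e hxQ] at hx0
    · exact absurd (br_out e hxQ) hx0
  have h4 := hLd.tp.mx _ (hRp.map _) h3
  rw [Subgroup.card_map_of_injective (Subgroup.normalizer (Q : Set G)).subtype_injective,
    card_comap hp R'] at h4
  have h5 : Nat.card V = Nat.card p.ker * Nat.card P' := by
    rw [← card_comap hp P', hP', Subgroup.comap_map_eq_self (by
      intro x hx
      exact Subgroup.mem_subgroupOf.2 (hQP (Subgroup.mem_subgroupOf.1 (hker hx)))),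
      Nat.card_congr (Subgroup.subgroupOfEquivOfLe hPN).toEquiv, hPV]
  rw [h5] at h4
  exact Nat.le_of_mul_le_mul_left h4 Nat.card_pos


theorem bnr : BnrStmt := by
  intro ℓ _ M _ hM G _ _ e V γ hLd R hR c hc hcc
  classical
  have hF : GoodF ℓ (FF M) := H50.fld ℓ Fact.out M hM
  obtain ⟨N, hN⟩ : ∃ N : Subgroup G, N = Subgroup.normalizer (R : Set G) := ⟨_, rfl⟩
  -- the defect group
  obtain ⟨k, hRP, hPC, hT⟩ := qt1g Asm.dug_ Asm.psg_ ℓ M hM G e V γ hLd R hR
    (Subgroup.normalizer (R : Set G))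
    ((MulEquiv.refl (Subgroup.normalizer (R : Set G)) :
      Subgroup.normalizer (R : Set G) ≃* Subgroup.normalizer (R : Set G)) :
      Subgroup.normalizer (R : Set G) →* Subgroup.normalizer (R : Set G))
    (fun x => ⟨x, rfl⟩) (by
      intro x hx
      have h1 : x = 1 := hx
      rw [h1]
      exact Subgroup.one_mem _) c hc (by
      rw [H85.push_equiv']
      exact hcc)
  have hT' : Tp ℓ c ((conjS k V).subgroupOf (Subgroup.normalizer (R : Set G))) := by
    have h1 : ((conjS k V).subgroupOf (Subgroup.normalizer (R : Set G))).map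
        ((MulEquiv.refl (Subgroup.normalizer (R : Set G)) :
        Subgroup.normalizer (R : Set G) ≃* Subgroup.normalizer (R : Set G)) :
        Subgroup.normalizer (R : Set G) →* Subgroup.normalizer (R : Set G)) =
        (conjS k V).subgroupOf (Subgroup.normalizer (R : Set G)) := by
      ext x
      constructor
      · rintro ⟨y, hy, rfl⟩
        exact hy
      · intro hx
        exact ⟨x, hx, rfl⟩
    rwa [h1] at hT
  obtain ⟨P, hP⟩ : ∃ P : Subgroup G, P = conjS k V := ⟨_, rfl⟩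
  rw [← hP] at hRP hPC hT'
  have hL := (Asm.lcj_ ℓ (FF M) hF G e V γ hLd k).1
  rw [← hP] at hL
  have hCN : Subgroup.centralizer (R : Set G) ≤ Subgroup.normalizer (R : Set G) :=
    Subgroup.centralizer_le_normalizer _
  have hPN : P ≤ Subgroup.normalizer (R : Set G) := hPC.trans hCN
  have hCPN : Subgroup.centralizer (P : Set G) ≤ Subgroup.normalizer (R : Set G) :=
    (Subgroup.centralizer_le (show (R : Set G) ⊆ P from hRP)).trans hCN
  -- the extension of `c` by zero
  obtain ⟨δ, hδ⟩ : ∃ δ : G → FF M, δ = H75.ext0 (Subgroup.normalizer (R : Set G)) c := ⟨_, rfl⟩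
  have hδs : ∀ x, x ∉ Subgroup.normalizer (R : Set G) → δ x = 0 := by
    rw [hδ]
    exact H75.ext0_supp _ c
  have hδC : (fun t : Subgroup.normalizer (R : Set G) => δ t) = c := by
    rw [hδ]
    exact funext (H75.ext0_apply _ c)
  have hBδ : Bx (Subgroup.normalizer (R : Set G)) δ := ⟨hδs, by rw [hδC]; exact hc⟩
  have hbrR : IsIdem (fun t : Subgroup.normalizer (R : Set G) => br R e t) :=
    (H20.brm ℓ (FF M) hF G R _ hR hCN le_rfl).2.2 e hLd.blk.1
  have hbs : ∀ x, x ∉ Subgroup.normalizer (R : Set G) → br R e x = 0 := by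
    intro x hx
    exact br_out e (fun h => hx (hCN h))
  have hIR : Ix (Subgroup.normalizer (R : Set G)) (br R e) := ⟨hbs, hbrR⟩
  have hund : mulF (br R e) δ = δ := by
    apply eq_of_res (mulF_supp _ hbs hδs) hδs
    rw [mulF_res _ δ hbs, hδC, hcc]
  have hinvP : H66.Inv P δ := fun p hp t => C2.H3.ix_inv hBδ.ix (hPN hp) t
  have hinvR : H66.Inv P (br R e) := fun p hp t => C2.H3.ix_inv hIR (hPN hp) t
  have hPe : mulF (br P e) (br P δ) = br P δ := by
    have h1 := congrArg (br P) hund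
    rwa [H66.br_mulF hF hL.tp.pg hinvR hinvP, C2.H3.br_br hRP] at h1
  -- the block `γ₁`
  have hne : br P δ ≠ 0 := by
    apply C2.H3.br_ne_of_gd
    obtain ⟨x, hx, hx0⟩ := hT'.gd
    refine ⟨x, (cent_sub hPN x).1 hx, ?_⟩
    have h1 := congrFun hδC x
    rw [h1]
    exact hx0
  obtain ⟨γ₁, hγ1, hγ2, hγ3⟩ := H46.exists_blk hne (Subgroup.centralizer (P : Set G))
  have hBx : Bx (Subgroup.centralizer (P : Set G)) γ₁ := ⟨hγ1, hγ2⟩
  have hIx : Ix (Subgroup.centralizer (P : Set G)) (br P δ) := by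
    refine ⟨fun x hx => H66.br_of_not_mem hx, ?_⟩
    have hPp : IsPGroup ℓ (P.subgroupOf (Subgroup.normalizer (R : Set G))) := hT'.pg
    have h1 := (H20.brm ℓ (FF M) hF (Subgroup.normalizer (R : Set G))
      (P.subgroupOf (Subgroup.normalizer (R : Set G))) _ hPp le_rfl
      (Subgroup.centralizer_le_normalizer _)).2.2 _ hc.1
    have h2 : (fun t : Subgroup.centralizer (P : Set G) => br P δ t) = fun t =>
        br (P.subgroupOf (Subgroup.normalizer (R : Set G))) c
          ((H85.cequiv hPN hCPN).symm t : Subgroup.normalizer (R : Set G)) := by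
      funext t
      rw [H66.br_of_mem t.2, H66.br_of_mem ((H85.cequiv hPN hCPN).symm t).2]
      rw [← hδC]
      rfl
    rw [h2]
    exact (H20.IsIdem_equiv (H85.cequiv hPN hCPN).symm).2 h1
  have hγc : mulF (br P δ) γ₁ = γ₁ := by
    rw [hIx.comm hBx.ix]
    rcases hBx.dich' hIx with h2 | h2
    · exact h2
    · exfalso
      apply hγ3
      rw [hIx.comm hBx.ix, h2]
  have hγe : mulF (br P e) γ₁ = γ₁ := by
    rw [← hγc, ← H20.mulF_assoc, hPe]
  -- conjugation
  obtain ⟨-, ⟨hb, -⟩, -⟩ := K9.H69.fmg ℓ M hM G e hL.blk P hL.tp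
  have hXN : Subgroup.centralizer (P : Set G) ≤ Subgroup.normalizer (P : Set G) :=
    Subgroup.centralizer_le_normalizer _
  have hNX : Subgroup.normalizer (P : Set G) ≤
      Subgroup.normalizer ((Subgroup.centralizer (P : Set G) : Subgroup G) : Set G) := by
    intro n hn
    have key : ∀ m : G, m ∈ Subgroup.normalizer (P : Set G) → ∀ c,
        c ∈ Subgroup.centralizer (P : Set G) → m * c * m⁻¹ ∈ Subgroup.centralizer (P : Set G) := by
      intro m hm c hc
      rw [Subgroup.mem_centralizer_iff]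
      intro v hv
      have h1 : m⁻¹ * v * m ∈ P := by
        have := (Subgroup.mem_normalizer_iff.1 (Subgroup.inv_mem _ hm) v).1 hv
        rwa [inv_inv] at this
      have h2 := Subgroup.mem_centralizer_iff.1 hc _ h1
      have h3 : m * (m⁻¹ * v * m * c) * m⁻¹ = m * (c * (m⁻¹ * v * m)) * m⁻¹ := by rw [h2]
      have h4 : m * (m⁻¹ * v * m * c) * m⁻¹ = v * (m * c * m⁻¹) := by group
      have h5 : m * (c * (m⁻¹ * v * m)) * m⁻¹ = m * c * m⁻¹ * v := by group
      rw [h4, h5] at h3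
      exact h3
    rw [Subgroup.mem_normalizer_iff]
    intro c
    refine ⟨key n hn c, fun hc => ?_⟩
    have h1 := key n⁻¹ (Subgroup.inv_mem _ hn) _ hc
    have h2 : n⁻¹ * (n * c * n⁻¹) * n⁻¹⁻¹ = c := by group
    rwa [h2] at h1
  obtain ⟨n, hn, hγn⟩ := orb_main hXN hNX (f := br P e)
    ⟨fun x hx => H66.br_of_not_mem fun h2 => hx (hXN h2), hb⟩ hL.gam hBx hL.und hγe
  have hconj : conjS (n * k) V = P := by
    ext x
    have h1 : conjS n P = P := mem_normalizer_iff_conjS.1 hn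
    rw [← h1, hP, mem_conjS, mem_conjS, mem_conjS]
    have e1 : (n * k)⁻¹ * x * (n * k) = k⁻¹ * (n⁻¹ * x * n) * k := by group
    rw [e1]
  have hcj : cj (n * k) γ = γ₁ := by
    rw [hγn, cj_cj]
  refine ⟨n * k, by rw [hconj]; exact hRP, ?_⟩
  rw [hconj, hcj]
  have h1 := H85.ld_of hPN hCPN hL.ab (b := δ) (γ := γ₁) (by rw [hδC]; exact hc) hBx hγc
    (by rw [hδC]; exact hT')
  rw [hδC] at h1
  exact h1

end Pool.Agent.PFD.H94b
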